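import Pool.Agent.Helper24_CTD.D4

/-!
# Module D11: the property p7
-/

open Set

namespace Pool.Agent.CTD.H24

section sg

variable {B : Type 1} [CompleteBooleanAlgebra B]

/-- `x` or its complement -/
def sg (φ : Bool) (x : B) : B := if φ = true then x else xᶜ

theorem sg_true (x : B) : sg true x = x := if_pos rfl

theorem sg_false (x : B) : sg false x = xᶜ := if_neg (by simp)

theorem le_of_bihimp {a b c : B} (h : c ≤ bihimp a b) (h1 : c ≤ a) : c ≤ b := by
  have h2 : c ≤ (a ⇨ b) ⊓ a := le_inf (h.trans inf_le_right) h1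
  exact h2.trans himp_inf_le

theorem bihimp_compl (a b : B) : bihimp aᶜ bᶜ = bihimp a b := by
  unfold bihimp
  rw [compl_himp_compl, compl_himp_compl, inf_comm]

theorem le_of_bihimp' {a b c : B} (h : c ≤ bihimp a b) (h1 : c ≤ aᶜ) : c ≤ bᶜ := by
  rw [← bihimp_compl] at h
  exact le_of_bihimp h h1

theorem sg_trans {a b c : B} {φ : Bool} (h : c ≤ bihimp a b) (h1 : c ≤ sg φ a) : c ≤ sg φ b := by
  cases φ
  · rw [sg_false] at *
    exact le_of_bihimp' h h1
  · rw [sg_true] at *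
    exact le_of_bihimp h h1

theorem le_bihimp {a b c : B} (h1 : c ≤ a) (h2 : c ≤ b) : c ≤ bihimp a b := by
  unfold bihimp
  exact le_inf (h1.trans le_himp) (h2.trans le_himp)

theorem sg_bihimp {a b c : B} {φ : Bool} (h1 : c ≤ sg φ a) (h2 : c ≤ sg φ b) :
    c ≤ bihimp a b := by
  cases φ
  · rw [sg_false] at *
    rw [← bihimp_compl]
    exact le_bihimp h1 h2
  · rw [sg_true] at *
    exact le_bihimp h1 h2

/-- deciding finitely many signs -/
theorem decide_signs {io : Cnd → B} (hio : IsDenseEmb io) (f : Th → B) (K : Finset Th) (p : Cnd) :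
    ∃ q ≤ p, ∃ φ : Th → Bool, ∀ t ∈ K, io q ≤ sg (φ t) (f t) := by
  classical
  induction K using Finset.induction_on with
  | empty => exact ⟨p, le_rfl, fun _ => true, by simp⟩
  | insert a s ha ih =>
    obtain ⟨q, hq, φ, hφ⟩ := ih
    by_cases h : f a ⊓ io q = ⊥
    · refine ⟨q, hq, Function.update φ a false, fun t ht => ?_⟩
      rcases Finset.mem_insert.1 ht with rfl | ht
      · rw [Function.update_self, sg_false, le_compl_iff_disjoint_left, disjoint_iff]
        exact h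
      · have : t ≠ a := fun hta => ha (hta ▸ ht)
        rw [Function.update_of_ne this]
        exact hφ t ht
    · obtain ⟨q', hq', hle⟩ := hio.dense q (f a) h
      refine ⟨q', hq'.trans hq, Function.update φ a true, fun t ht => ?_⟩
      rcases Finset.mem_insert.1 ht with rfl | ht
      · rw [Function.update_self, sg_true]
        exact hle
      · have : t ≠ a := fun hta => ha (hta ▸ ht)
        rw [Function.update_of_ne this]
        exact (hio.mono _ _ hq').trans (hφ t ht)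

end sg

/-- Module D11. -/
theorem d11 (hA3 : A3Ix) (hD2 : D2Cv) (hD8 : D8Cp) (hD10 : D10Co) : D11P7 := by
  classical
  intro B _ io hio y
  by_contra hcon
  set R : B := ⨆ α : Th, ⨆ z : Th → B, IsX (Fb io) z ⊓
    (⨅ K : Finset Th, ⨆ β, ⨆ _ : β < α, agr K z (y β)) ⊓
    (⨅ K : Finset Th, ⨆ β, ⨆ _ : α ≤ β, agr K z (y β)) with hR
  set b0 : B := (⨅ β, IsX (Fb io) (y β)) ⊓ Rᶜ with hb0
  have hb0ne : b0 ≠ ⊥ := by
    intro h
    apply hcon
    rw [hb0, ← _root_.sdiff_eq, sdiff_eq_bot_iff] at h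
    exact h
  have hex : ∀ β : Th, ∃ μ : (Br → B) → B, UF μ ∧
      ∀ K : Finset Th, b0 ≤ μ (fun b => agr K (y β) (Fb io b)) := by
    intro β
    obtain ⟨μ, h1, h2⟩ := d3 Br B
      {s | ∃ K : Finset Th, s = fun b : Br => agr K (y β) (Fb io b)} b0
      (by
        rintro _ ⟨K, rfl⟩ _ ⟨K', rfl⟩
        refine ⟨K ∪ K', ?_⟩
        funext b
        exact (agr_union K K' _ _).symm)
      (by
        rintro _ ⟨K, rfl⟩
        refine (inf_le_left.trans (iInf_le _ β)).trans ?_
        exact iInf_le (fun K : Finset Th => ⨆ b : Br, agr K (y β) (Fb io b)) K)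
    exact ⟨μ, h1, fun K => h2 _ ⟨K, rfl⟩⟩
  choose μ hμ hμK using hex
  obtain ⟨ζ, hζ⟩ := hD8 B io hio μ
  have hbot : b0 ⊓ (⨆ z : Th → B, IsX (Fb io) z ⊓
      (⨅ K : Finset Th, ⨆ β, ⨆ _ : β < ζ, agr K z (y β)) ⊓
      (⨅ K : Finset Th, ⨆ β, ⨆ _ : ζ ≤ β, agr K z (y β))) = ⊥ := by
    rw [← le_bot_iff]
    have h1 : (⨆ z : Th → B, IsX (Fb io) z ⊓
      (⨅ K : Finset Th, ⨆ β, ⨆ _ : β < ζ, agr K z (y β)) ⊓
      (⨅ K : Finset Th, ⨆ β, ⨆ _ : ζ ≤ β, agr K z (y β))) ≤ R :=
      le_iSup (fun α : Th => ⨆ z : Th → B, IsX (Fb io) z ⊓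
        (⨅ K : Finset Th, ⨆ β, ⨆ _ : β < α, agr K z (y β)) ⊓
        (⨅ K : Finset Th, ⨆ β, ⨆ _ : α ≤ β, agr K z (y β))) ζ
    refine (inf_le_inf inf_le_right h1).trans ?_
    rw [compl_inf_eq_bot]
  have h4 := d4 B (Fb io) y ζ b0 inf_le_left hbot
  have hexK : ∃ K : Finset Th, b0 ⊓ (⨅ β, ⨅ _ : β < ζ, ⨅ β', ⨅ _ : ζ ≤ β',
      (agr K (y β) (y β'))ᶜ) ≠ ⊥ := by
    by_contra hne
    push Not at hne
    apply hb0ne
    rw [← le_bot_iff]
    have : b0 ≤ b0 ⊓ ⨆ K : Finset Th, ⨅ β, ⨅ _ : β < ζ, ⨅ β', ⨅ _ : ζ ≤ β',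
      (agr K (y β) (y β'))ᶜ := le_inf le_rfl h4
    refine this.trans ?_
    rw [inf_iSup_eq]
    exact iSup_le fun K => (hne K).le
  obtain ⟨K, hK⟩ := hexK
  obtain ⟨p, hp⟩ := hio.exists_le _ hK
  obtain ⟨q0, hq0, φ, hφ⟩ := decide_signs hio (y ζ) K p
  have hqb : io q0 ≤ b0 := ((hio.mono _ _ hq0).trans hp).trans inf_le_left
  have hG : ∀ β t, b0 ≤ bihimp (y β t) (μ β (fun b => Fb io b t)) := by
    intro β t
    have h := hμK β {t}
    have h1 : (fun b => agr {t} (y β) (Fb io b)) =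
        fun b => bihimp ((fun _ : Br => y β t) b) ((fun b => Fb io b t) b) := by
      funext b
      exact agr_singleton t _ _
    rw [h1, uf_bihimp (hμ β), (hμ β).const] at h
    exact h
  obtain ⟨-, hxi, hix, -⟩ := hA3
  obtain ⟨-, hD2c, -, -, hD2f⟩ := hD2 B io hio
  let K' : Finset Nd := K.image xi
  let φ' : Nd → Bool := fun n => φ (ix n)
  have hcv1 : ∀ β t, μ β (cv io {π | π (xi t) = φ' (xi t)}) =
      sg (φ t) (μ β (fun b => Fb io b t)) := by
    intro β t
    have e : φ' (xi t) = φ t := by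
      simp only [φ', hix]
    rw [e]
    cases hφt : φ t
    · rw [sg_false, ← (hμ β).compl]
      congr 1
      funext b
      have h1 : {π : Nd → Bool | π (xi t) = false} = {π : Nd → Bool | π (xi t) = true}ᶜ := by
        ext π
        simp
      rw [h1, hD2c]
      · rfl
      · refine ⟨{xi t}, subset_univ _, countable_singleton _, fun π π' h => ?_⟩
        have := h (xi t) rfl
        simp [this]
    · rw [sg_true]
      rfl
  have hcv : ∀ β, μ β (cv io (Zf K' φ')) = ⨅ t ∈ K, sg (φ t) (μ β (fun b => Fb io b t)) := by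
    intro β
    have e1 : cv io (Zf K' φ') = fun b => ⨅ n ∈ K', (fun n => cv io {π | π n = φ' n}) n b := by
      funext b
      exact hD2f K' φ' b
    rw [e1, uf_iInf_fin (hμ β)]
    simp only [K', Finset.mem_image, iInf_exists, iInf_and]
    rw [iInf_comm]
    refine iInf_congr fun t => ?_
    rw [iInf_comm]
    refine iInf_congr fun ht => ?_
    rw [iInf_iInf_eq_right]
    exact hcv1 β t
  refine hD10 B io hio μ hμ ζ hζ K' φ' q0 ?_ ?_
  · rw [hcv]
    refine le_iInf₂ fun t ht => ?_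
    exact sg_trans (hqb.trans (hG ζ t)) (hφ t ht)
  · intro β hβ
    rw [← le_bot_iff]
    set w : B := io q0 ⊓ μ β (cv io (Zf K' φ')) with hw
    have hwq : w ≤ io q0 := inf_le_left
    have h5 : w ≤ agr K (y β) (y ζ) := by
      unfold agr
      refine le_iInf₂ fun t ht => ?_
      refine sg_bihimp (φ := φ t) ?_ (hwq.trans (hφ t ht))
      refine sg_trans (a := μ β (fun b => Fb io b t)) ?_ ?_
      · rw [bihimp_comm]
        exact (hwq.trans hqb).trans (hG β t)
      · refine inf_le_right.trans ?_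
        rw [hcv]
        exact iInf₂_le t ht
    have h6 : w ≤ (agr K (y β) (y ζ))ᶜ := by
      refine (hwq.trans (((hio.mono _ _ hq0).trans hp).trans inf_le_right)).trans ?_
      refine (iInf₂_le β hβ).trans ?_
      exact iInf₂_le ζ le_rfl
    exact (le_inf h5 h6).trans (by rw [inf_compl_self])

end Pool.Agent.CTD.H24
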