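import Pool.Agent.Helper24_CTD.D9

/-!
# Module D4: the compactness step
-/

open Set

namespace Pool.Agent.CTD.H24

section agr

variable {B : Type 1} [CompleteBooleanAlgebra B] {T : Type*}

theorem agr_empty (z z' : T → B) : agr (∅ : Finset T) z z' = ⊤ := by
  simp [agr]

theorem agr_union [DecidableEq T] (K K' : Finset T) (z z' : T → B) :
    agr (K ∪ K') z z' = agr K z z' ⊓ agr K' z z' := by
  simp only [agr, Finset.mem_union, iInf_or, iInf_inf_eq]

theorem agr_singleton (t : T) (z z' : T → B) : agr {t} z z' = bihimp (z t) (z' t) := by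
  simp [agr]

theorem agr_comm (K : Finset T) (z z' : T → B) : agr K z z' = agr K z' z := by
  simp only [agr, bihimp_comm]

theorem agr_le {K : Finset T} {t : T} (h : t ∈ K) (z z' : T → B) :
    agr K z z' ≤ bihimp (z t) (z' t) := iInf₂_le t h

theorem bihimp_trans (a b c : B) : bihimp a b ⊓ bihimp b c ≤ bihimp a c := by
  unfold bihimp
  refine le_inf ?_ ?_
  · rw [le_himp_iff]
    have h1 : (b ⇨ a) ⊓ ((c ⇨ b) ⊓ c) ≤ a :=
      (inf_le_inf_left _ himp_inf_le).trans himp_inf_le
    refine le_trans ?_ h1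
    refine le_inf ?_ (le_inf ?_ ?_)
    · exact inf_le_left.trans (inf_le_left.trans inf_le_left)
    · exact inf_le_left.trans (inf_le_right.trans inf_le_left)
    · exact inf_le_right
  · rw [le_himp_iff]
    have h1 : (b ⇨ c) ⊓ ((a ⇨ b) ⊓ a) ≤ c :=
      (inf_le_inf_left _ himp_inf_le).trans himp_inf_le
    refine le_trans ?_ h1
    refine le_inf ?_ (le_inf ?_ ?_)
    · exact inf_le_left.trans (inf_le_right.trans inf_le_right)
    · exact inf_le_left.trans (inf_le_left.trans inf_le_right)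
    · exact inf_le_right

theorem agr_trans (K : Finset T) (z z' z'' : T → B) :
    agr K z z' ⊓ agr K z' z'' ≤ agr K z z'' := by
  unfold agr
  refine le_iInf₂ fun t ht => ?_
  exact le_trans (inf_le_inf (iInf₂_le t ht) (iInf₂_le t ht)) (bihimp_trans _ _ _)

end agr

/-- The ultrafilter value of an agreement with a fixed function. -/
theorem uf_agr {I : Type*} {B : Type 1} [CompleteBooleanAlgebra B] {μ : (I → B) → B} (h : UF μ)
    {T : Type*} (K : Finset T) (Φ Ψ : I → T → B) :
    μ (fun i => agr K (Φ i) (Ψ i)) = agr K (fun t => μ (fun i => Φ i t)) (fun t => μ (fun i => Ψ i t)) := by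
  have h1 : (fun i => agr K (Φ i) (Ψ i)) =
      fun i => ⨅ t ∈ K, (fun t i => bihimp (Φ i t) (Ψ i t)) t i := rfl
  rw [h1, uf_iInf_fin h K]
  unfold agr
  refine iInf_congr fun t => iInf_congr fun _ => ?_
  exact uf_bihimp h (fun i => Φ i t) (fun i => Ψ i t)

/-- Module D4. -/
theorem d4 : D4Co := by
  classical
  intro B _ F y α b0 hb0 hbot
  by_contra hcon
  set R : B := ⨆ K : Finset Th, ⨅ β, ⨅ _ : β < α, ⨅ β', ⨅ _ : α ≤ β', (agr K (y β) (y β'))ᶜ
    with hR
  set c : B := b0 ⊓ Rᶜ with hc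
  have hcne : c ≠ ⊥ := by
    intro h
    apply hcon
    rw [hc, ← _root_.sdiff_eq, sdiff_eq_bot_iff] at h
    exact h
  let I : Type 1 := {x : Th × Th // x.1 < α ∧ α ≤ x.2}
  have hcK : ∀ K : Finset Th, c ≤ ⨆ i : I, agr K (y i.1.1) (y i.1.2) := by
    intro K
    refine inf_le_right.trans ?_
    rw [hR, compl_iSup]
    refine (iInf_le _ K).trans ?_
    rw [compl_iInf]
    refine iSup_le fun β => ?_
    rw [compl_iInf]
    refine iSup_le fun hβ => ?_
    rw [compl_iInf]
    refine iSup_le fun β' => ?_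
    rw [compl_iInf]
    refine iSup_le fun hβ' => ?_
    rw [compl_compl]
    exact le_iSup (fun i : I => agr K (y i.1.1) (y i.1.2)) ⟨(β, β'), hβ, hβ'⟩
  have hI : Nonempty I := by
    by_contra hne
    rw [not_nonempty_iff] at hne
    have := hcK ∅
    rw [iSup_of_empty, le_bot_iff] at this
    exact hcne this
  obtain ⟨μ, hμ, hμS⟩ := d3 I B {s | ∃ K : Finset Th, s = fun i : I => agr K (y i.1.1) (y i.1.2)} c
    (by
      rintro _ ⟨K, rfl⟩ _ ⟨K', rfl⟩
      refine ⟨K ∪ K', ?_⟩
      funext i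
      exact (agr_union K K' _ _).symm)
    (by
      rintro _ ⟨K, rfl⟩
      exact hcK K)
  have hμK : ∀ K : Finset Th, c ≤ μ (fun i : I => agr K (y i.1.1) (y i.1.2)) :=
    fun K => hμS _ ⟨K, rfl⟩
  let z : Th → B := fun t => μ (fun i : I => y i.1.1 t)
  let z' : Th → B := fun t => μ (fun i : I => y i.1.2 t)
  have e1 : ∀ K : Finset Th, μ (fun i : I => agr K z (y i.1.1)) = ⊤ := by
    intro K
    rw [uf_agr hμ K (fun _ => z) (fun i => y i.1.1)]
    have : (fun t => μ (fun _ : I => z t)) = z := funext fun t => hμ.const _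
    rw [this]
    simp [agr, z]
  have e2 : ∀ K : Finset Th, c ≤ agr K z z' := by
    intro K
    have := hμK K
    rwa [uf_agr hμ K (fun i : I => y i.1.1) (fun i => y i.1.2)] at this
  have e3 : ∀ K : Finset Th, c ≤ μ (fun i : I => agr K z (y i.1.2)) := by
    intro K
    rw [uf_agr hμ K (fun _ => z) (fun i => y i.1.2)]
    have : (fun t => μ (fun _ : I => z t)) = z := funext fun t => hμ.const _
    rw [this]
    exact e2 K
  have hfin : c ≤ b0 ⊓ (⨆ z : Th → B, IsX F z ⊓
      (⨅ K : Finset Th, ⨆ β, ⨆ _ : β < α, agr K z (y β)) ⊓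
      (⨅ K : Finset Th, ⨆ β, ⨆ _ : α ≤ β, agr K z (y β))) := by
    refine le_inf inf_le_left ?_
    refine le_trans ?_ (le_iSup _ z)
    refine le_inf (le_inf ?_ ?_) ?_
    · refine le_iInf fun K => ?_
      have h1 : c ⊓ μ (fun i : I => agr K z (y i.1.1)) ≤
          μ (fun _ : I => ⨆ b : Br, agr K z (F b)) := by
        refine uf_le_of hμ c _ _ fun i => ?_
        have h2 : c ≤ ⨆ b : Br, agr K (y i.1.1) (F b) := by
          refine (inf_le_left.trans hb0).trans ?_
          refine (iInf_le _ i.1.1).trans ?_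
          exact iInf_le (fun K : Finset Th => ⨆ b : Br, agr K (y i.1.1) (F b)) K
        refine (inf_le_inf_right _ h2).trans ?_
        rw [iSup_inf_eq]
        refine iSup_mono fun b => ?_
        rw [inf_comm]
        exact agr_trans K _ _ _
      rw [e1 K, inf_top_eq, hμ.const] at h1
      exact h1
    · refine le_iInf fun K => ?_
      refine le_top.trans ?_
      rw [← e1 K]
      refine (uf_le_iSup hμ _).trans ?_
      refine iSup_le fun i => ?_
      exact le_iSup₂ (f := fun β (_ : β < α) => agr K z (y β)) i.1.1 i.2.1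
    · refine le_iInf fun K => ?_
      refine (e3 K).trans ?_
      refine (uf_le_iSup hμ _).trans ?_
      refine iSup_le fun i => ?_
      exact le_iSup₂ (f := fun β (_ : α ≤ β) => agr K z (y β)) i.1.2 i.2.2
  rw [hbot, le_bot_iff] at hfin
  exact hcne hfin

end Pool.Agent.CTD.H24
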