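import Pool.Agent.Helper94_CTD.Stmts

/-!
# Modules D9 and D3: Boolean valued ultrafilters
-/

open Set

namespace Pool.Agent.CTD.H24

theorem uf_mono {I : Type*} {B : Type 1} [CompleteBooleanAlgebra B] {μ : (I → B) → B}
    (h : UF μ) {Φ Ψ : I → B} (hl : Φ ≤ Ψ) : μ Φ ≤ μ Ψ := by
  have h1 : (fun i => Φ i ⊓ Ψ i) = Φ := by
    funext i
    exact inf_eq_left.2 (hl i)
  have h2 := h.inf Φ Ψ
  rw [h1] at h2
  rw [h2]
  exact inf_le_right

theorem uf_sup {I : Type*} {B : Type 1} [CompleteBooleanAlgebra B] {μ : (I → B) → B}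
    (h : UF μ) (Φ Ψ : I → B) : μ (fun i => Φ i ⊔ Ψ i) = μ Φ ⊔ μ Ψ := by
  have h1 : (fun i => Φ i ⊔ Ψ i) = fun i => ((fun j => (Φ j)ᶜ ⊓ (Ψ j)ᶜ) i)ᶜ := by
    funext i
    simp
  rw [h1, h.compl, h.inf, h.compl, h.compl]
  simp

theorem uf_himp {I : Type*} {B : Type 1} [CompleteBooleanAlgebra B] {μ : (I → B) → B}
    (h : UF μ) (Φ Ψ : I → B) : μ (fun i => Φ i ⇨ Ψ i) = μ Φ ⇨ μ Ψ := by
  have h1 : (fun i => Φ i ⇨ Ψ i) = fun i => Ψ i ⊔ (fun j => (Φ j)ᶜ) i := by
    funext i
    exact himp_eq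
  rw [h1, uf_sup h, h.compl, himp_eq]

theorem uf_bihimp {I : Type*} {B : Type 1} [CompleteBooleanAlgebra B] {μ : (I → B) → B}
    (h : UF μ) (Φ Ψ : I → B) : μ (fun i => bihimp (Φ i) (Ψ i)) = bihimp (μ Φ) (μ Ψ) := by
  have h1 : (fun i => bihimp (Φ i) (Ψ i)) =
      fun i => (fun j => Ψ j ⇨ Φ j) i ⊓ (fun j => Φ j ⇨ Ψ j) i := rfl
  rw [h1, h.inf, uf_himp h, uf_himp h]
  rfl

theorem uf_le_iSup {I : Type*} {B : Type 1} [CompleteBooleanAlgebra B] {μ : (I → B) → B}
    (h : UF μ) (Φ : I → B) : μ Φ ≤ ⨆ i, Φ i := by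
  have := uf_mono h (Φ := Φ) (Ψ := fun _ => ⨆ i, Φ i) (fun i => le_iSup Φ i)
  rwa [h.const] at this

theorem uf_iInf_le {I : Type*} {B : Type 1} [CompleteBooleanAlgebra B] {μ : (I → B) → B}
    (h : UF μ) (Φ : I → B) : (⨅ i, Φ i) ≤ μ Φ := by
  have := uf_mono h (Φ := fun _ => ⨅ i, Φ i) (Ψ := Φ) (fun i => iInf_le Φ i)
  rwa [h.const] at this

theorem uf_le_of {I : Type*} {B : Type 1} [CompleteBooleanAlgebra B] {μ : (I → B) → B}
    (h : UF μ) (c : B) (Φ Ψ : I → B) (hc : ∀ i, c ⊓ Φ i ≤ Ψ i) : c ⊓ μ Φ ≤ μ Ψ := by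
  have h1 : μ (fun i => (fun _ => c) i ⊓ Φ i) ≤ μ Ψ := uf_mono h hc
  rwa [h.inf, h.const] at h1

theorem uf_iInf_fin {I : Type*} {B : Type 1} [CompleteBooleanAlgebra B] {μ : (I → B) → B}
    (h : UF μ) {T : Type*} (K : Finset T) (Φ : T → I → B) :
    μ (fun i => ⨅ t ∈ K, Φ t i) = ⨅ t ∈ K, μ (Φ t) := by
  classical
  induction K using Finset.induction_on with
  | empty =>
    have h1 : (fun i : I => ⨅ t ∈ (∅ : Finset T), Φ t i) = fun _ => (⊤ : B) := by
      funext i
      simp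
    rw [h1, h.const]
    simp
  | insert a s ha ih =>
    have h1 : (fun i : I => ⨅ t ∈ (insert a s : Finset T), Φ t i) =
        fun i => Φ a i ⊓ (fun j => ⨅ t ∈ s, Φ t j) i := by
      funext i
      simp [Finset.mem_insert, iInf_or, iInf_inf_eq]
    rw [h1, h.inf, ih]
    simp [Finset.mem_insert, iInf_or, iInf_inf_eq]

theorem uf_iSup_fin {I : Type*} {B : Type 1} [CompleteBooleanAlgebra B] {μ : (I → B) → B}
    (h : UF μ) {T : Type*} (K : Finset T) (Φ : T → I → B) :
    μ (fun i => ⨆ t ∈ K, Φ t i) = ⨆ t ∈ K, μ (Φ t) := by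
  classical
  induction K using Finset.induction_on with
  | empty =>
    have h1 : (fun i : I => ⨆ t ∈ (∅ : Finset T), Φ t i) = fun _ => (⊥ : B) := by
      funext i
      simp
    rw [h1, h.const]
    simp
  | insert a s ha ih =>
    have h1 : (fun i : I => ⨆ t ∈ (insert a s : Finset T), Φ t i) =
        fun i => Φ a i ⊔ (fun j => ⨆ t ∈ s, Φ t j) i := by
      funext i
      simp [Finset.mem_insert, iSup_or, iSup_sup_eq]
    rw [h1, uf_sup h, ih]
    simp [Finset.mem_insert, iSup_or, iSup_sup_eq]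

/-- Module D9. -/
theorem d9 : D9Uf := by
  intro I B _ μ h
  exact ⟨fun _ _ hl => uf_mono h hl, uf_le_iSup h, uf_iInf_le h, uf_sup h, uf_bihimp h,
    uf_le_of h, fun _ K Φ => uf_iInf_fin h K Φ, fun _ K Φ => uf_iSup_fin h K Φ⟩

/-! ## D3 -/

/-- The functions used in the application of Zorn's lemma. -/
structure PF {I B : Type*} [CompleteBooleanAlgebra B] (S : Set (I → B)) (b0 : B)
    (m : (I → B) → B) : Prop where
  inf : ∀ Φ Ψ, m (Φ ⊓ Ψ) = m Φ ⊓ m Ψ
  const : ∀ c, c ≤ m (fun _ => c)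
  sup : ∀ Φ, m Φ ≤ ⨆ i, Φ i
  mem : ∀ s ∈ S, b0 ≤ m s

theorem PF.mono {I B : Type*} [CompleteBooleanAlgebra B] {S : Set (I → B)} {b0 : B}
    {m : (I → B) → B} (h : PF S b0 m) {Φ Ψ : I → B} (hl : Φ ≤ Ψ) : m Φ ≤ m Ψ := by
  have h2 := h.inf Φ Ψ
  rw [inf_eq_left.2 hl] at h2
  rw [h2]
  exact inf_le_right

/-- the starting function -/
noncomputable def m0 {I B : Type*} [CompleteBooleanAlgebra B] (S : Set (I → B)) (b0 : B)
    (Φ : I → B) : B :=
  (⨅ i, Φ i) ⊔ ⨆ s ∈ S, b0 ⊓ ⨅ i, (s i ⇨ Φ i)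

theorem m0_pf {I B : Type*} [CompleteBooleanAlgebra B] [Nonempty I] (S : Set (I → B)) (b0 : B)
    (h1 : ∀ s ∈ S, ∀ s' ∈ S, s ⊓ s' ∈ S) (h2 : ∀ s ∈ S, b0 ≤ ⨆ i, s i) :
    PF S b0 (m0 S b0) := by
  have hmono : ∀ Φ Ψ : I → B, Φ ≤ Ψ → m0 S b0 Φ ≤ m0 S b0 Ψ := by
    intro Φ Ψ h
    refine sup_le_sup (iInf_mono h) (iSup₂_mono fun s hs => inf_le_inf_left _ (iInf_mono fun i => ?_))
    exact himp_le_himp_left (h i)
  refine ⟨?_, ?_, ?_, ?_⟩
  · intro Φ Ψ
    apply le_antisymm
    · exact le_inf (hmono _ _ inf_le_left) (hmono _ _ inf_le_right)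
    · unfold m0
      rw [inf_sup_right, inf_sup_left, inf_sup_left]
      refine sup_le (sup_le ?_ ?_) (sup_le ?_ ?_)
      · refine le_trans ?_ le_sup_left
        refine le_iInf fun i => ?_
        exact inf_le_inf (iInf_le _ i) (iInf_le _ i)
      · refine le_trans ?_ le_sup_right
        rw [inf_iSup₂_eq]
        refine iSup₂_mono fun s hs => ?_
        refine le_inf (inf_le_right.trans inf_le_left) (le_iInf fun i => ?_)
        rw [le_himp_iff]
        simp only [Pi.inf_apply]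
        refine le_inf ?_ ?_
        · exact inf_le_left.trans (inf_le_left.trans (iInf_le _ i))
        · refine le_trans (inf_le_inf_right _ (inf_le_right.trans (inf_le_right.trans
            (iInf_le _ i)))) ?_
          exact himp_inf_le
      · refine le_trans ?_ le_sup_right
        rw [iSup₂_inf_eq]
        refine iSup₂_mono fun s hs => ?_
        refine le_inf (inf_le_left.trans inf_le_left) (le_iInf fun i => ?_)
        rw [le_himp_iff]
        simp only [Pi.inf_apply]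
        refine le_inf ?_ ?_
        · refine le_trans (inf_le_inf_right _ (inf_le_left.trans (inf_le_right.trans
            (iInf_le _ i)))) ?_
          exact himp_inf_le
        · exact inf_le_left.trans (inf_le_right.trans (iInf_le _ i))
      · refine le_trans ?_ le_sup_right
        rw [iSup₂_inf_eq]
        refine iSup₂_le fun s hs => ?_
        rw [inf_iSup₂_eq]
        refine iSup₂_le fun s' hs' => ?_
        refine le_trans ?_ (le_iSup₂ (f := fun (s : I → B) (_ : s ∈ S) =>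
          b0 ⊓ ⨅ i, (s i ⇨ (Φ ⊓ Ψ) i)) (s ⊓ s') (h1 s hs s' hs'))
        refine le_inf (inf_le_left.trans inf_le_left) (le_iInf fun i => ?_)
        rw [le_himp_iff]
        simp only [Pi.inf_apply]
        refine le_inf ?_ ?_
        · refine le_trans (inf_le_inf (inf_le_left.trans (inf_le_right.trans
            (iInf_le _ i))) inf_le_left) ?_
          exact himp_inf_le
        · refine le_trans (inf_le_inf (inf_le_right.trans (inf_le_right.trans
            (iInf_le _ i))) inf_le_right) ?_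
          exact himp_inf_le
  · intro c
    refine le_trans ?_ le_sup_left
    exact le_iInf fun _ => le_rfl
  · intro Φ
    refine sup_le ?_ ?_
    · obtain ⟨i⟩ := ‹Nonempty I›
      exact (iInf_le _ i).trans (le_iSup _ i)
    · refine iSup₂_le fun s hs => ?_
      refine le_trans (inf_le_inf_right _ (h2 s hs)) ?_
      rw [iSup_inf_eq]
      refine iSup_mono fun i => ?_
      refine le_trans (inf_le_inf_left _ (iInf_le _ i)) ?_
      exact inf_himp_le
  · intro s hs
    refine le_trans ?_ le_sup_right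
    refine le_trans ?_ (le_iSup₂ (f := fun (s' : I → B) (_ : s' ∈ S) =>
      b0 ⊓ ⨅ i, (s' i ⇨ s i)) s hs)
    simp

/-- Module D3. -/
theorem d3 : D3Uf := by
  intro I B _ _ S b0 h1 h2
  have hP := m0_pf S b0 h1 h2
  obtain ⟨m, -, hm⟩ := zorn_le_nonempty₀ {m : (I → B) → B | PF S b0 m} (by
    intro c hcS hc y hy
    refine ⟨fun Φ => ⨆ m ∈ c, m Φ, ?_, ?_⟩
    · refine ⟨?_, ?_, ?_, ?_⟩
      · intro Φ Ψ
        apply le_antisymm
        · refine iSup₂_le fun m hm => ?_
          rw [(hcS hm).inf]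
          exact inf_le_inf (le_iSup₂ (f := fun (m : (I → B) → B) (_ : m ∈ c) => m Φ) m hm)
            (le_iSup₂ (f := fun (m : (I → B) → B) (_ : m ∈ c) => m Ψ) m hm)
        · rw [iSup₂_inf_eq]
          refine iSup₂_le fun m hm => ?_
          rw [inf_iSup₂_eq]
          refine iSup₂_le fun m' hm' => ?_
          rcases hc.total hm hm' with h | h
          · refine le_trans ?_ (le_iSup₂ (f := fun (m : (I → B) → B) (_ : m ∈ c) =>
              m (Φ ⊓ Ψ)) m' hm')
            rw [(hcS hm').inf]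
            exact inf_le_inf_right _ (h Φ)
          · refine le_trans ?_ (le_iSup₂ (f := fun (m : (I → B) → B) (_ : m ∈ c) =>
              m (Φ ⊓ Ψ)) m hm)
            rw [(hcS hm).inf]
            exact inf_le_inf_left _ (h Ψ)
      · intro d
        exact ((hcS hy).const d).trans (le_iSup₂ (f := fun (m : (I → B) → B) (_ : m ∈ c) =>
              m (fun _ => d)) y hy)
      · intro Φ
        exact iSup₂_le fun m hm => (hcS hm).sup Φ
      · intro s hs
        exact ((hcS hy).mem s hs).trans (le_iSup₂ (f := fun (m : (I → B) → B) (_ : m ∈ c) =>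
              m s) y hy)
    · intro z hz Φ
      exact le_iSup₂ (f := fun (m : (I → B) → B) (_ : m ∈ c) => m Φ) z hz) (m0 S b0) hP
  have hmP : PF S b0 m := hm.prop
  have hbot : ∀ Φ : I → B, m Φ ⊓ m Φᶜ = ⊥ := by
    intro Φ
    rw [← hmP.inf, inf_compl_self]
    have := hmP.sup (⊥ : I → B)
    rw [← le_bot_iff]
    refine this.trans ?_
    simp
  have htop : m ⊤ = ⊤ := by
    rw [← top_le_iff]
    exact hmP.const ⊤
  have hcompl : ∀ Φ : I → B, m Φᶜ = (m Φ)ᶜ := by
    intro Φ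
    set c : B := (m Φ ⊔ m Φᶜ)ᶜ with hc
    have hnew : PF S b0 (fun Ψ => m Ψ ⊔ (c ⊓ m (Φ ⇨ Ψ))) := by
      refine ⟨?_, ?_, ?_, ?_⟩
      · intro Ψ1 Ψ2
        have hh : ∀ Ψ : I → B, m Ψ ≤ m (Φ ⇨ Ψ) := fun Ψ => hmP.mono le_himp
        have e1 : m (Φ ⇨ (Ψ1 ⊓ Ψ2)) = m (Φ ⇨ Ψ1) ⊓ m (Φ ⇨ Ψ2) := by
          rw [himp_inf_distrib, hmP.inf]
        rw [hmP.inf, e1]
        apply le_antisymm
        · refine sup_le (le_inf ?_ ?_) (le_inf ?_ ?_)
          · exact inf_le_left.trans le_sup_left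
          · exact inf_le_right.trans le_sup_left
          · exact le_trans (inf_le_inf_left _ inf_le_left) le_sup_right
          · exact le_trans (inf_le_inf_left _ inf_le_right) le_sup_right
        · rw [inf_sup_right, inf_sup_left, inf_sup_left]
          refine sup_le (sup_le ?_ ?_) (sup_le ?_ ?_)
          · exact le_sup_left
          · refine le_trans ?_ le_sup_right
            refine le_inf (inf_le_right.trans inf_le_left) (le_inf ?_ ?_)
            · exact inf_le_left.trans (hh Ψ1)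
            · exact inf_le_right.trans inf_le_right
          · refine le_trans ?_ le_sup_right
            refine le_inf (inf_le_left.trans inf_le_left) (le_inf ?_ ?_)
            · exact inf_le_left.trans inf_le_right
            · exact inf_le_right.trans (hh Ψ2)
          · refine le_trans ?_ le_sup_right
            refine le_inf (inf_le_left.trans inf_le_left) (le_inf ?_ ?_)
            · exact inf_le_left.trans inf_le_right
            · exact inf_le_right.trans inf_le_right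
      · intro d
        exact (hmP.const d).trans le_sup_left
      · intro Ψ
        refine sup_le (hmP.sup Ψ) ?_
        set d : B := ⨆ i, Ψ i with hd
        have h3 : dᶜ ⊓ m (Φ ⇨ Ψ) ≤ m Φᶜ := by
          refine le_trans (inf_le_inf_right _ (hmP.const dᶜ)) ?_
          rw [← hmP.inf]
          refine hmP.mono fun i => ?_
          simp only [Pi.inf_apply, Pi.himp_apply, Pi.compl_apply]
          rw [le_compl_iff_disjoint_right, disjoint_iff_inf_le, inf_assoc]
          have : (Φ i ⇨ Ψ i) ⊓ Φ i ≤ d := himp_inf_le.trans (le_iSup Ψ i)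
          refine (inf_le_inf_left _ this).trans ?_
          rw [compl_inf_eq_bot]
        have h4 : (c ⊓ m (Φ ⇨ Ψ)) ⊓ dᶜ ≤ ⊥ := by
          have : (c ⊓ m (Φ ⇨ Ψ)) ⊓ dᶜ = c ⊓ (dᶜ ⊓ m (Φ ⇨ Ψ)) := by
            rw [inf_assoc, inf_comm (m (Φ ⇨ Ψ))]
          rw [this]
          refine (inf_le_inf_left _ (h3.trans (le_sup_right (a := m Φ)))).trans ?_
          rw [hc, compl_inf_eq_bot]
        rw [← _root_.sdiff_eq, le_bot_iff, sdiff_eq_bot_iff] at h4
        exact h4
      · intro s hs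
        exact (hmP.mem s hs).trans le_sup_left
    have hle : m ≤ (fun Ψ => m Ψ ⊔ (c ⊓ m (Φ ⇨ Ψ))) := fun Ψ => le_sup_left
    have hge := hm.le_of_ge hnew hle
    have h5 : c ≤ m Φ := by
      refine le_trans ?_ (hge Φ)
      refine le_trans ?_ le_sup_right
      rw [himp_self, htop, inf_top_eq]
    have h6 : c ≤ (m Φ)ᶜ := by
      rw [hc, compl_sup]
      exact inf_le_left
    have h7 : c = ⊥ := by
      rw [← le_bot_iff]
      exact (le_inf h5 h6).trans (by rw [inf_compl_self])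
    have h8 : m Φ ⊔ m Φᶜ = ⊤ := by
      rw [hc, compl_eq_bot] at h7
      exact h7
    exact (IsCompl.of_eq (hbot Φ) h8).compl_eq.symm
  refine ⟨m, ⟨?_, ?_, ?_⟩, fun s hs => hmP.mem s hs⟩
  · intro Φ Ψ
    exact hmP.inf Φ Ψ
  · intro Φ
    exact hcompl Φ
  · intro c
    apply le_antisymm
    · refine (hmP.sup _).trans ?_
      exact iSup_le fun _ => le_rfl
    · exact hmP.const c

end Pool.Agent.CTD.H24
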